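import Pool.Agent.Lib.MP_15cbb0_co.Growth

namespace Pool.Agent.Results.MP_15cbb0_co.ExponentialGrowth

open Pool.Agent.Lib.MP_15cbb0_co

/-- For every `n ≥ 1`: `(1/4) (2/√3)^n ≤ mob(Q_n) ≤ 2^⌊n/2⌋ + 2^⌈n/2⌉`. -/
theorem result (n : ℕ) (hn : 1 ≤ n) :
    (1 / 4 : ℝ) * (2 / √3) ^ n ≤ mob (Q n) ∧
      mob (Q n) ≤ 2 ^ (n / 2) + 2 ^ ((n + 1) / 2) :=
  growth n hn

end Pool.Agent.Results.MP_15cbb0_co.ExponentialGrowth
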