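import Pool.Agent.Lib.MP_15cbb0_co.Lower

namespace Pool.Agent.Results.MP_15cbb0_co.MobVersusGP

open Pool.Agent.Lib.MP_15cbb0_co

/-- For every `n ≥ 0`: `gp(Q_n) ≤ mob(Q_{n+1}) ≤ gp(Q_{n+1}) ≤ 2 mob(Q_{n+1})`. -/
theorem result (n : ℕ) :
    gp (Q n) ≤ mob (Q (n + 1)) ∧ mob (Q (n + 1)) ≤ gp (Q (n + 1)) ∧
      gp (Q (n + 1)) ≤ 2 * mob (Q (n + 1)) :=
  ⟨gp_le_mob n, mob_le_gp _,
    (gp_succ_le n).trans (Nat.mul_le_mul_left 2 (gp_le_mob n))⟩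

end Pool.Agent.Results.MP_15cbb0_co.MobVersusGP
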